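import Pool.Agent.Y5.V.Stm
import Pool.Agent.Y809.EK.CJ1
import Pool.Agent.Y978.EK.CJ2

/-! VL-XN2: the perturbations of the chain. -/

open Set Filter Topology
open scoped ComplexConjugate

set_option autoImplicit false

namespace Pool.Agent.Y955.VL.XN2

open Pool.Agent.Y5.V
open Pool.Agent.Y6.M (Z3 C3 Coef nsq len IsField energy)
open Pool.Agent.Y5.D (pair bil vec Fam)
open Pool.Agent.Y6.K (Em Ac cvf Chain S_CJ1 S_CJ2)
open Pool.Agent.Y302.Trunc (Lev rho)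

lemma Ac_pos (h2 : S_CJ2) (n : ℕ) : 0 < Ac n := by
  obtain ⟨-, -, hch, -⟩ := h2
  induction n with
  | zero => linarith [hch.A0]
  | succ n ih => linarith [hch.lo n]

lemma Em_sum (h1 : S_CJ1) (n : ℕ) : ∑ k ∈ Lev 1 n, ‖Em n k‖ ^ 2 = 1 := by
  obtain ⟨-, -, -, -, -, -, h7⟩ := h1
  obtain ⟨-, -, hp, -, -, hz⟩ := h7 n
  rw [← hp]
  unfold pair
  rw [tsum_eq_sum (s := Lev 1 n) fun k hk => by rw [(hz k hk).1, inner_zero_left]]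
  exact Finset.sum_congr rfl fun k _ => (real_inner_self_eq_norm_sq _).symm

lemma decay (h1 : S_CJ1) (h2 : S_CJ2) (w : Fam) (x : ℕ → ℝ) (hR : Pool.Agent.Y5.D.Rap w)
    (hl : ∀ n, ∀ k ∈ Lev 1 n, w k = x n • Em n k) (m : ℕ) : ∃ M, ∀ n, Ac n ^ m * |x n| ≤ M := by
  obtain ⟨M, hM⟩ := hR m
  have hM0 : 0 ≤ M := le_trans (mul_nonneg (pow_nonneg (norm_nonneg _) _) (norm_nonneg _)) (hM 0)
  refine ⟨5 * (10 ^ m * M), fun n => ?_⟩
  have hA := Ac_pos h2 n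
  have hEm := Em_sum h1 n
  have hx : x n ^ 2 = ∑ k ∈ Lev 1 n, ‖w k‖ ^ 2 := by
    rw [Finset.sum_congr rfl fun k hk => by rw [hl n k hk, norm_smul, mul_pow, Real.norm_eq_abs,
      sq_abs], ← Finset.mul_sum, hEm, mul_one]
  have hk : ∀ k ∈ Lev 1 n, (Ac n ^ m * ‖w k‖) ^ 2 ≤ (10 ^ m * M) ^ 2 := by
    intro k hk
    have h3 : ‖vec k‖ ^ 2 = (rho 1 n : ℝ) := (h1.1 n k).1 hk
    have h4 : Ac n ^ 2 ≤ 100 * (rho 1 n : ℝ) := (h2.2.2.2 n).2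
    have h5 : Ac n ≤ 10 * ‖vec k‖ := by
      apply (pow_le_pow_iff_left₀ hA.le (by positivity) two_ne_zero).1
      rw [mul_pow, h3]
      linarith
    have h6 : Ac n ^ m * ‖w k‖ ≤ 10 ^ m * M := by
      calc Ac n ^ m * ‖w k‖ ≤ (10 * ‖vec k‖) ^ m * ‖w k‖ := by gcongr
        _ = 10 ^ m * (‖vec k‖ ^ m * ‖w k‖) := by rw [mul_pow]; ring
        _ ≤ 10 ^ m * M := by gcongr; exact hM k
    gcongr
  have h7 : (Ac n ^ m * |x n|) ^ 2 ≤ (5 * (10 ^ m * M)) ^ 2 := by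
    calc (Ac n ^ m * |x n|) ^ 2 = (Ac n ^ m) ^ 2 * x n ^ 2 := by rw [mul_pow, sq_abs]
      _ = ∑ k ∈ Lev 1 n, (Ac n ^ m * ‖w k‖) ^ 2 := by
        rw [hx, Finset.mul_sum]
        exact Finset.sum_congr rfl fun k _ => by rw [mul_pow]
      _ ≤ ∑ k ∈ Lev 1 n, (10 ^ m * M) ^ 2 := Finset.sum_le_sum hk
      _ = 24 * (10 ^ m * M) ^ 2 := by
        rw [Finset.sum_const, (h1.2.1 n).1, nsmul_eq_mul]
        norm_num
      _ ≤ (5 * (10 ^ m * M)) ^ 2 := by nlinarith [sq_nonneg (10 ^ m * M)]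
  exact (pow_le_pow_iff_left₀ (by positivity) (by positivity) two_ne_zero).1 h7

theorem t_XN2 : S_XN2 := by
  classical
  intro hLEV h3 h4
  obtain ⟨C, hC, h4⟩ := h4
  refine ⟨C, hC, fun V hV hS hE n => ?_⟩
  obtain ⟨hOT, hRap, -, hsq, hlev, -⟩ := hLEV V hV hS
  have h5 : ∑' k, ‖wOf V k‖ ^ 2 ≤ 1 := by
    have : ∑' k, ‖wOf V k‖ ^ 2 = energy V := tsum_congr fun k => hsq k
    rw [this]
    exact hE
  have h6 := h4 (wOf V) (xc V) hOT hRap h5 hlev n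
  rw [h3 (xc V) (decay Pool.Agent.Y809.EK.t_CJ1 (Pool.Agent.Y978.EK.t_CJ2 Pool.Agent.Y809.EK.t_CJ1) (wOf V) (xc V) hRap hlev) n] at h6
  have h7 : (∑' k, if lac (nsq k) then 0 else (nsq k : ℝ) ^ (5 / 6 : ℝ) * ‖wOf V k‖ ^ 2) = eo V := by
    unfold eo
    exact tsum_congr fun k => by rw [hsq k]
  rw [← h7]
  exact h6

end Pool.Agent.Y955.VL.XN2
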